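import Pool.Agent.H705.GB.Stm

/-! # Package LIT of project GB: the literal recursion is the case `x m = m` -/

set_option autoImplicit false

namespace Pool.Agent.H294.GB.LIT

open Pool.Agent.H705.GB
open Pool.Agent.H705.TR (PrimeIn)

lemma primeIn_iff (m : ℕ) (hm : 2 ≤ m) : PrimeIn m m ↔ m.Prime := by
  constructor
  · intro h
    by_contra hp
    exact h m.minFac (Nat.minFac_prime (by omega)) (Nat.minFac_sq_le_self (by omega) hp) (Nat.minFac_dvd m)
  · intro hp p hpp hle hdvd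
    rcases (Nat.dvd_prime hp).mp hdvd with h | h
    · exact hpp.one_lt.ne' h
    · subst h
      nlinarith

lemma G_even {N c n : ℕ} (he : n % 2 = 0) (hn : 1 ≤ n) (hc : n < c) :
    G N c n c (2 * N - c) = Nat.gcd (c - n) n := by
  have h1 : Nat.gcd c n = Nat.gcd (c - n) n := by
    have e : c = (c - n) + n := by omega
    conv_lhs => rw [e]
    rw [Nat.gcd_add_self_left]
  unfold G
  rw [if_pos he]
  split_ifs with h
  · rw [primeIn_iff _ (by omega)] at h
    rw [← h1]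
    have h2 : Nat.gcd c n = 1 := Nat.coprime_of_lt_prime (by omega) (by omega) h
    exact h2.symm
  · exact h1

lemma G_odd {N c n : ℕ} (ho : n % 2 = 1) (hn : 1 ≤ n) (hc : n < c) (hN : c ≤ N) :
    G N c n c (2 * N - c) = Nat.gcd (c - n) (2 * N - n) := by
  have h1 : Nat.gcd (2 * N - c) (n + 2 * (N - c)) = Nat.gcd (c - n) (2 * N - n) := by
    have e1 : 2 * N - c = (c - n) + (n + 2 * (N - c)) := by omega
    have e2 : 2 * N - n = (n + 2 * (N - c)) + 2 * (c - n) := by omega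
    rw [e1, e2, Nat.gcd_add_self_left, Nat.gcd_add_mul_right_right]
  unfold G
  rw [if_neg (by omega)]
  split_ifs with h
  · rw [primeIn_iff _ (by omega)] at h
    rw [← h1]
    have h2 : Nat.gcd (2 * N - c) (n + 2 * (N - c)) = 1 :=
      Nat.coprime_of_lt_prime (by omega) (by omega) h
    exact h2.symm
  · exact h1

lemma G_id {N A n : ℕ} (hn : 1 ≤ n) (hA : 0 < A) (hN : A + n ≤ N) :
    G N (A + n) n (A + n) (2 * N - (A + n)) =
      Int.gcd (A : ℤ) ((N : ℤ) - (-1) ^ n * ((N : ℤ) - n)) := by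
  rcases Nat.mod_two_eq_zero_or_one n with he | ho
  · rw [G_even he hn (by omega), Nat.add_sub_cancel,
      (Nat.even_iff.2 he).neg_one_pow]
    have e : (N : ℤ) - 1 * ((N : ℤ) - n) = (n : ℤ) := by ring
    rw [e, Int.gcd_natCast_natCast]
  · rw [G_odd ho hn (by omega) hN, Nat.add_sub_cancel, (Nat.odd_iff.2 ho).neg_one_pow]
    have e : (N : ℤ) - (-1) * ((N : ℤ) - n) = ((2 * N - n : ℕ) : ℤ) := by
      rw [Nat.cast_sub (by omega)]
      push_cast
      ring
    rw [e, Int.gcd_natCast_natCast]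

lemma step {a : ℕ → ℤ} {N n : ℕ} (hn : 1 ≤ n)
    (ha : a (n + 1) = a n -
      (Int.gcd (a n) ((N : ℤ) - (-1) ^ (n + 1) * ((N : ℤ) - ((n + 1 : ℕ) : ℤ))) : ℤ))
    (h0 : aseq id N n ≠ 0) (hN : aseq id N n + (n + 1) ≤ N) (ih : (aseq id N n : ℤ) = a n) :
    (aseq id N (n + 1) : ℤ) = a (n + 1) ∧ aseq id N (n + 1) + (n + 1 + 1) ≤ N := by
  obtain ⟨k, rfl⟩ : ∃ k, n = k + 1 := ⟨n - 1, by omega⟩
  have hpos : 0 < aseq id N (k + 1) := Nat.pos_of_ne_zero h0
  have e1 : aseq id N (k + 1 + 1) = aseq id N (k + 1) -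
      G N (aseq id N (k + 1) + (k + 2)) (k + 2) (id (aseq id N (k + 1) + (k + 2)))
        (id (2 * N - (aseq id N (k + 1) + (k + 2)))) := rfl
  have e2 := G_id (N := N) (A := aseq id N (k + 1)) (n := k + 2) (by omega) hpos (by omega)
  rw [e1, id, id, e2, ha, ← ih]
  have e3 : Int.gcd (aseq id N (k + 1) : ℤ)
      ((N : ℤ) - (-1) ^ (k + 2) * ((N : ℤ) - ((k + 2 : ℕ) : ℤ))) ∣ aseq id N (k + 1) := by
    have h := Int.gcd_dvd_left (aseq id N (k + 1) : ℤ)
      ((N : ℤ) - (-1) ^ (k + 2) * ((N : ℤ) - ((k + 2 : ℕ) : ℤ)))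
    exact Int.natCast_dvd_natCast.1 h
  have e4 := Nat.le_of_dvd hpos e3
  have e5 := Nat.pos_of_dvd_of_pos e3 hpos
  refine ⟨?_, by omega⟩
  rw [Nat.cast_sub e4]

theorem T_LIT (hRUN : P_RUN) : P_LIT := by
  refine ⟨primeIn_iff, ?_⟩
  intro N hN a ha1 ha
  obtain ⟨⟨hF, hleast⟩, -⟩ := hRUN id N hN
  have hone : aseq id N 1 = N - 2 := rfl
  have hne : ∀ k, 1 ≤ k → k < F id N → aseq id N k ≠ 0 := fun k hk hkF h0 => by
    rcases Nat.lt_or_ge k 2 with h | h
    · obtain rfl : k = 1 := by omega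
      rw [hone] at h0
      omega
    · have := hleast (show k ∈ {n : ℕ | 2 ≤ n ∧ aseq id N n = 0} from ⟨h, h0⟩)
      omega
  have key : ∀ n : ℕ, 1 ≤ n → n ≤ F id N → (aseq id N n : ℤ) = a n ∧ aseq id N n + (n + 1) ≤ N := by
    intro n hn
    induction n, hn using Nat.le_induction with
    | base =>
      intro _
      rw [hone, ha1, Nat.cast_sub (by omega)]
      exact ⟨rfl, by omega⟩
    | succ n hn ih =>
      intro hle
      obtain ⟨i1, i2⟩ := ih (by omega)
      exact step hn (by simpa using ha (n + 1) (by omega)) (hne n hn (by omega)) i2 i1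
  refine ⟨fun n h1 h2 => (key n h1 h2).1, ⟨hF.1, ?_⟩, ?_⟩
  · have := (key _ (by have := hF.1; omega) le_rfl).1
    rw [hF.2] at this
    simpa using this.symm
  · intro m hm
    by_contra hlt
    push Not at hlt
    have h1 := (key m (by have := hm.1; omega) hlt.le).1
    rw [hm.2] at h1
    exact hne m (by have := hm.1; omega) hlt (by exact_mod_cast h1)

end Pool.Agent.H294.GB.LIT
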